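import Pool.Agent.H247.SD.Stm

/-!
# Spectral decomposition (helper247), part TR (helper385)
-/

set_option autoImplicit false

open Set Filter Topology Metric

universe u

namespace Pool.Agent.H385.SDTR

open Pool.Agent.H247.SD
open Pool.Agent.R774.OS (CR)
open Pool.Agent.Q182.MC (ChainTo cls)

/-- periodic points are chain recurrent -/
theorem per_CR {X : Type u} [MetricSpace X] [CompactSpace X] (G : X → X) (y : X) (p : ℕ)
    (hp : 1 ≤ p) (h : G^[p] y = y) : y ∈ CR G := by
  rw [Pool.Agent.R774.OS.mem_CR]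
  intro δ hδ
  refine ⟨p, fun j => G^[j] y, hp, rfl, fun j => ?_, fun j => ?_⟩
  · show G^[j + p] y = G^[j] y
    rw [Function.iterate_add_apply, h]
  · show dist (G (G^[j] y)) (G^[j + 1] y) < δ
    rw [Function.iterate_succ_apply', dist_self]
    exact hδ

theorem main (hCC : S_CC.{u}) : S_TR.{u} := by
  intro X _ _ G hSh hη a b hb ε hε
  obtain ⟨η, hη, hcls⟩ := hη
  obtain ⟨δ, hδ, hsh⟩ := hSh (min ε η) (lt_min hε hη)
  obtain ⟨p, x, k, hp, hper, hCR, hj, hx0, hxk⟩ := hCC X G a b hb δ hδ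
  obtain ⟨y, hy, hyx⟩ := hsh p x hp hper hCR hj
  have hyCR : y ∈ CR (G : X → X) := per_CR G y p hp hy
  have haCR : a ∈ CR (G : X → X) := hx0 ▸ hCR 0
  have h0 : dist y a < min ε η := by
    have h1 := hyx 0
    rw [hx0] at h1
    exact h1
  refine ⟨y, hcls a haCR y hyCR ?_, k, h0.trans_le (min_le_left _ _), ?_⟩
  · rw [dist_comm]
    exact h0.trans_le (min_le_right _ _)
  · have h1 := hyx k
    rw [hxk] at h1
    exact h1.trans_le (min_le_left _ _)

end Pool.Agent.H385.SDTR
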